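import Pool.Agent.W819.EN.Stm

/-!
# Extreme nesting: annuli by cheap links
-/

namespace Pool.Agent.W214.EN
open H974 Finset Filter Topology MeasureTheory
open Pool.Agent.W819.EN
open scoped Real

theorem okP : Ok (P2 : Edg → ℝ) := fun _ => ⟨by norm_num, by norm_num⟩

theorem bx_mono (v : Vtx) {k l : ℤ} (h : k ≤ l) : bx v k ⊆ bx v l := by
  unfold bx
  rintro ⟨x, y, _ | _⟩ h
  · simp only [mem_RE_false] at h ⊢; omega
  · simp only [mem_RE_true] at h ⊢; omega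

/-- choice of the cost -/
theorem choice {τ e A R : ℝ} (hτ : 0 < τ) (he : 0 < e) (hA : 0 < A) (hR : 1 ≤ R) :
    ∃ k : ℕ, Real.exp (τ * (4 + 18 * (k : ℝ))) ≤ Real.exp (4 * τ) * R ^ e ∧
      (Real.exp (-(18 * τ * A / e))) ^ k ≤ (Real.exp (-(18 * τ * A / e)))⁻¹ * R ^ (-A) := by
  have hR0 : 0 < R := by linarith
  have hlog : 0 ≤ Real.log R := Real.log_nonneg hR
  refine ⟨⌊e * Real.log R / (18 * τ)⌋₊, ?_, ?_⟩
  · have h1 : ((⌊e * Real.log R / (18 * τ)⌋₊ : ℕ) : ℝ) ≤ e * Real.log R / (18 * τ) :=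
      Nat.floor_le (by positivity)
    rw [Real.rpow_def_of_pos hR0, ← Real.exp_add]
    apply Real.exp_le_exp.mpr
    have h2 : 18 * τ * ((⌊e * Real.log R / (18 * τ)⌋₊ : ℕ) : ℝ) ≤ e * Real.log R := by
      rw [le_div_iff₀ (by positivity)] at h1
      linarith
    nlinarith
  · have h1 : e * Real.log R / (18 * τ) < ((⌊e * Real.log R / (18 * τ)⌋₊ : ℕ) : ℝ) + 1 :=
      Nat.lt_floor_add_one _
    set k : ℝ := ((⌊e * Real.log R / (18 * τ)⌋₊ : ℕ) : ℝ) with hk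
    rw [← Real.exp_nat_mul, ← Real.exp_neg, Real.rpow_def_of_pos hR0, ← Real.exp_add]
    apply Real.exp_le_exp.mpr
    rw [← hk]
    rw [div_lt_iff₀ (by positivity)] at h1
    have h2 : A * Real.log R ≤ (k + 1) * (18 * τ * A / e) := by
      rw [mul_div_assoc', le_div_iff₀ he]
      nlinarith
    nlinarith

section
variable {N : Finset Edg → Vtx → ℕ → ℕ → ℕ}

/-- independence of the inner and the outer part -/
theorem indep (hG : Geo N) (s : ℝ) {b R : ℕ} (hb : 1 ≤ b) (hR : 8 * b ≤ R) :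
    Ex P2 (bx (0, 0) R) (fun F => Real.exp (s * N F (0, 0) 0 (2 * b)) *
      Real.exp (s * N F (0, 0) (4 * b) R)) =
    Ex P2 (bx (0, 0) R) (fun F => Real.exp (s * N F (0, 0) 0 (2 * b))) *
      Ex P2 (bx (0, 0) R) (fun F => Real.exp (s * N F (0, 0) (4 * b) R)) := by
  refine Ex_mul_indep (S := an (0, 0) 0 (2 * b)) (T := an (0, 0) (4 * b) R) ?_ ?_ ?_ ?_ ?_
  · unfold an
    exact Finset.sdiff_subset.trans (bx_mono _ (by push_cast; omega))
  · unfold an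
    exact Finset.sdiff_subset
  · unfold an
    rw [Finset.disjoint_left]
    intro x hx hx2
    rw [Finset.mem_sdiff] at hx hx2
    exact hx2.2 (bx_mono _ (by push_cast; omega) hx.1)
  · intro F _
    rw [hG.loc F (0, 0) 0 (2 * b) (by omega)]
  · intro F _
    rw [hG.loc F (0, 0) (4 * b) R (by omega)]

/-- the inner part -/
theorem inner (hG : Geo N) (s : ℝ) {b R : ℕ} (hR : 8 * b ≤ R) :
    Ex P2 (bx (0, 0) R) (fun F => Real.exp (s * N F (0, 0) 0 (2 * b))) =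
    Ex P2 (bx (0, 0) ((2 * b : ℕ) : ℤ)) (fun F => Real.exp (s * N F (0, 0) 0 (2 * b))) := by
  refine Ex_local (bx_mono _ (by push_cast; omega)) ?_
  intro F _
  rw [hG.loc F (0, 0) 0 (2 * b) (by omega),
    hG.loc (F ∩ bx (0, 0) ((2 * b : ℕ) : ℤ)) (0, 0) 0 (2 * b) (by omega)]
  congr 4
  ext x
  simp only [Finset.mem_inter, an, Finset.mem_sdiff]
  tauto

end

theorem two_rpow_split {b : ℕ} (hb : 1 ≤ b) (x : ℝ) :
    (((2 * b : ℕ) : ℝ)) ^ x = 2 ^ x * (b : ℝ) ^ x := by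
  push_cast
  rw [Real.mul_rpow (by norm_num) (by positivity)]

/-- the part off the link, `s > 0` -/
theorem offlink {N : Finset Edg → Vtx → ℕ → ℕ → ℕ} {s : ℝ} {R : ℕ} {L : Finset Edg → Prop}
    (l : ℝ) (hl : 0 < l) :
    Ex P2 (bx (0, 0) R) (fun F => Real.exp (s * N F (0, 0) 0 R) * ind (¬ L F)) ≤
      l * Ex P2 (bx (0, 0) R) (fun F => Real.exp (2 * s * N F (0, 0) 0 R)) +
        l⁻¹ * Pr P2 (bx (0, 0) R) (fun F => ¬ L F) := by
  unfold Pr
  rw [← Ex_mul_left, ← Ex_mul_left, ← Ex_add]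
  refine Ex_mono okP fun F _ => ?_
  by_cases h : ¬ L F
  · rw [ind_of h]
    have e1 : Real.exp (2 * s * N F (0, 0) 0 R) = Real.exp (s * N F (0, 0) 0 R) ^ 2 := by
      rw [← Real.exp_nat_mul]; congr 1; push_cast; ring
    rw [e1]
    set x := Real.exp (s * N F (0, 0) 0 R)
    have hx : 0 < x := Real.exp_pos _
    rw [mul_one, mul_one]
    have h2 : 0 ≤ (l * x - 1) ^ 2 := sq_nonneg _
    have h3 : x ≤ (l * x ^ 2 + l⁻¹) := by
      rw [← sub_nonneg]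
      have : l * x ^ 2 + l⁻¹ - x = l⁻¹ * ((l * x - 1) ^ 2 + l * x) := by
        field_simp
        ring
      rw [this]
      positivity
    exact h3
  · rw [ind_not_of h, mul_zero]
    have := Real.exp_pos (2 * s * N F (0, 0) 0 R)
    simp only [mul_zero, add_zero]
    positivity

set_option maxHeartbeats 2000000 in
theorem lo {N : Finset Edg → Vtx → ℕ → ℕ → ℕ} (hG : Geo N) (h1 : One N) (hL : LTail) (s : ℝ)
    (hs : 0 < s) : AnnLo N s := by
  intro ε hε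
  set e : ℝ := ε / 3 with he
  have he0 : 0 < e := by positivity
  obtain ⟨C1, hC1, hone⟩ := h1 s e he0
  obtain ⟨C2, hC2, htwo⟩ := h1 (2 * s) e he0
  set Λ := Lam s with hΛ
  set M : ℝ := max (Lam (2 * s) + e - (Λ - e - 1)) 0 with hM
  have hM1 : Lam (2 * s) + e - M ≤ Λ - e - 1 := by
    have := le_max_left (Lam (2 * s) + e - (Λ - e - 1)) 0
    rw [← hM] at this
    linarith
  have hM0 : 0 ≤ M := le_max_right _ _
  set A : ℝ := max (M - (Λ - e - 1)) 1 with hA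
  have hA0 : 0 < A := lt_of_lt_of_le one_pos (le_max_right _ _)
  have hA1 : M - A ≤ Λ - e - 1 := by
    have := le_max_left (M - (Λ - e - 1)) 1
    rw [← hA] at this
    linarith
  set ρ : ℝ := Real.exp (-(18 * s * A / e)) with hρ
  have hρ0 : 0 < ρ := Real.exp_pos _
  obtain ⟨C3, hC3, hlt⟩ := hL ρ hρ0
  set C' : ℝ := C2 + C3 * ρ⁻¹ with hC'
  have hC'0 : 0 < C' := by positivity
  set R0 : ℝ := max (2 * C1 * C') 1 with hR0
  have hR01 : 1 ≤ R0 := le_max_right _ _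
  -- the constant
  set D : ℝ := 2 * C1 * (Real.exp (4 * s) * C1 * 2 ^ (Λ + e)) with hD
  have hD0 : 0 < D := by positivity
  refine ⟨max D (R0 ^ |Λ|), lt_max_of_lt_left hD0, ?_⟩
  intro b R hb hbR
  have hbr : (1 : ℝ) ≤ b := by exact_mod_cast hb
  have hb0 : (0 : ℝ) < b := by linarith
  have hbRr : 8 * (b : ℝ) ≤ R := by exact_mod_cast hbR
  have hR1 : (1 : ℝ) ≤ R := by linarith
  have hRpos : (0 : ℝ) < R := by linarith
  have hR1n : 1 ≤ R := by omega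
  set E2 := Ex P2 (bx (0, 0) R) (fun F => Real.exp (s * N F (0, 0) (4 * b) R)) with hE2
  have hE2one : 1 ≤ E2 := by
    rw [hE2, ← Ex_const P2 (bx (0, 0) R) (1 : ℝ)]
    refine Ex_mono okP fun F _ => ?_
    exact Real.one_le_exp (by positivity)
  have hquot : (1 : ℝ) ≤ (R : ℝ) / b := by
    rw [le_div_iff₀ hb0]; linarith
  have hbb : (b : ℝ) ≤ R := by linarith
  by_cases hRR : (R : ℝ) < R0
  · -- small R
    have hm : 0 < max D (R0 ^ |Λ|) := lt_max_of_lt_left hD0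
    have ha : ((R : ℝ) / b) ^ Λ ≤ R0 ^ |Λ| := by
      calc ((R : ℝ) / b) ^ Λ ≤ ((R : ℝ) / b) ^ |Λ| :=
            Real.rpow_le_rpow_of_exponent_le hquot (le_abs_self _)
        _ ≤ R0 ^ |Λ| := by
            refine Real.rpow_le_rpow (by positivity) ?_ (abs_nonneg _)
            rw [div_le_iff₀ hb0]
            nlinarith
    have hb2 : (R : ℝ) ^ (-ε) ≤ 1 := Real.rpow_le_one_of_one_le_of_nonpos hR1 (by linarith)
    have hRe : 0 ≤ (R : ℝ) ^ (-ε) := by positivity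
    have hq0 : 0 ≤ ((R : ℝ) / b) ^ Λ := by positivity
    calc (max D (R0 ^ |Λ|))⁻¹ * ((R : ℝ) / b) ^ Λ * (R : ℝ) ^ (-ε)
        ≤ (max D (R0 ^ |Λ|))⁻¹ * (max D (R0 ^ |Λ|)) * 1 := by
          refine mul_le_mul ?_ hb2 hRe (by positivity)
          refine mul_le_mul_of_nonneg_left ?_ (by positivity)
          exact ha.trans (le_max_right _ _)
      _ = 1 := by rw [inv_mul_cancel₀ hm.ne', mul_one]
      _ ≤ E2 := hE2one
  · rw [not_lt] at hRR
    obtain ⟨k, hk1, hk2⟩ := choice hs he0 hA0 hR1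
    set E0 := Ex P2 (bx (0, 0) R) (fun F => Real.exp (s * N F (0, 0) 0 R)) with hE0
    set E1 := Ex P2 (bx (0, 0) R) (fun F => Real.exp (s * N F (0, 0) 0 (2 * b))) with hE1
    have hE0lo : C1⁻¹ * (R : ℝ) ^ (Λ - e) ≤ E0 := (hone R hR1n).1
    have hE1up : E1 ≤ C1 * (((2 * b : ℕ) : ℝ)) ^ (Λ + e) := by
      rw [hE1, inner hG s hbR]
      exact (hone (2 * b) (by omega)).2
    have hEE : Ex P2 (bx (0, 0) R) (fun F => Real.exp (2 * s * N F (0, 0) 0 R)) ≤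
        C2 * (R : ℝ) ^ (Lam (2 * s) + e) := (htwo R hR1n).2
    have hPr : Pr P2 (bx (0, 0) R) (fun F => ¬ Lnk (0, 0) b k F) ≤ C3 * ρ ^ k := by
      refine hlt b (0, 0) (bx (0, 0) R) hb (bx_mono _ ?_) k
      exact_mod_cast hbR
    -- off the link
    set l : ℝ := (R : ℝ) ^ (-M) with hl
    have hl0 : 0 < l := by positivity
    have hoff := offlink (N := N) (s := s) (R := R) (L := Lnk (0, 0) b k) l hl0
    have hoff2 : Ex P2 (bx (0, 0) R) (fun F => Real.exp (s * N F (0, 0) 0 R) *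
        ind (¬ Lnk (0, 0) b k F)) ≤ C' * (R : ℝ) ^ (Λ - e - 1) := by
      refine hoff.trans ?_
      have a1 : l * Ex P2 (bx (0, 0) R) (fun F => Real.exp (2 * s * N F (0, 0) 0 R)) ≤
          C2 * (R : ℝ) ^ (Λ - e - 1) := by
        calc l * Ex P2 (bx (0, 0) R) (fun F => Real.exp (2 * s * N F (0, 0) 0 R))
            ≤ l * (C2 * (R : ℝ) ^ (Lam (2 * s) + e)) := mul_le_mul_of_nonneg_left hEE hl0.le
          _ = C2 * (R : ℝ) ^ (Lam (2 * s) + e - M) := by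
              have : (R : ℝ) ^ (Lam (2 * s) + e - M) = (R : ℝ) ^ (-M) *
                  (R : ℝ) ^ (Lam (2 * s) + e) := by
                rw [← Real.rpow_add hRpos]; congr 1; ring
              rw [this, hl]; ring
          _ ≤ C2 * (R : ℝ) ^ (Λ - e - 1) :=
              mul_le_mul_of_nonneg_left (Real.rpow_le_rpow_of_exponent_le hR1 hM1) hC2.le
      have a2 : l⁻¹ * Pr P2 (bx (0, 0) R) (fun F => ¬ Lnk (0, 0) b k F) ≤
          C3 * ρ⁻¹ * (R : ℝ) ^ (Λ - e - 1) := by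
        have hlinv : l⁻¹ = (R : ℝ) ^ M := by
          rw [hl, Real.rpow_neg hRpos.le, inv_inv]
        calc l⁻¹ * Pr P2 (bx (0, 0) R) (fun F => ¬ Lnk (0, 0) b k F)
            ≤ l⁻¹ * (C3 * (ρ⁻¹ * (R : ℝ) ^ (-A))) := by
              refine mul_le_mul_of_nonneg_left ?_ (by positivity)
              exact hPr.trans (mul_le_mul_of_nonneg_left hk2 hC3.le)
          _ = C3 * ρ⁻¹ * (R : ℝ) ^ (M - A) := by
              rw [hlinv, sub_eq_add_neg, Real.rpow_add hRpos]; ring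
          _ ≤ C3 * ρ⁻¹ * (R : ℝ) ^ (Λ - e - 1) :=
              mul_le_mul_of_nonneg_left (Real.rpow_le_rpow_of_exponent_le hR1 hA1) (by positivity)
      calc _ ≤ C2 * (R : ℝ) ^ (Λ - e - 1) + C3 * ρ⁻¹ * (R : ℝ) ^ (Λ - e - 1) := add_le_add a1 a2
        _ = C' * (R : ℝ) ^ (Λ - e - 1) := by rw [hC']; ring
    -- pointwise inequality
    have hpt : E0 ≤ Real.exp (s * (4 + 18 * (k : ℝ))) * (E1 * E2) +
        Ex P2 (bx (0, 0) R) (fun F => Real.exp (s * N F (0, 0) 0 R) *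
        ind (¬ Lnk (0, 0) b k F)) := by
      rw [hE1, hE2, ← indep hG s hb hbR, ← Ex_mul_left, ← Ex_add]
      refine Ex_mono okP fun F _ => ?_
      by_cases hlk : Lnk (0, 0) b k F
      · have hN := hG.link F (0, 0) b k 0 R hb (by omega) hbR hlk
        have hNr : ((N F (0, 0) 0 R : ℕ) : ℝ) ≤ N F (0, 0) 0 (2 * b) + N F (0, 0) (4 * b) R +
            (4 + 18 * (k : ℝ)) := by exact_mod_cast hN
        rw [ind_not_of (not_not.mpr hlk), mul_zero, add_zero, ← Real.exp_add, ← Real.exp_add]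
        apply Real.exp_le_exp.mpr
        nlinarith
      · rw [ind_of hlk, mul_one]
        have : 0 ≤ Real.exp (s * (4 + 18 * (k : ℝ))) * (Real.exp (s * N F (0, 0) 0 (2 * b)) *
          Real.exp (s * N F (0, 0) (4 * b) R)) := by positivity
        linarith
    have hmain : C1⁻¹ * (R : ℝ) ^ (Λ - e) ≤
        Real.exp (4 * s) * (R : ℝ) ^ e * (C1 * (((2 * b : ℕ) : ℝ)) ^ (Λ + e) * E2) +
          C' * (R : ℝ) ^ (Λ - e - 1) := by
      refine hE0lo.trans (hpt.trans (add_le_add ?_ hoff2))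
      refine mul_le_mul hk1 ?_ ?_ (by positivity)
      · exact mul_le_mul_of_nonneg_right hE1up (by linarith)
      · refine mul_nonneg ?_ (by linarith)
        rw [hE1]
        exact Ex_nonneg okP fun F _ => (Real.exp_pos _).le
    -- absorb the last term
    have habs : C' * (R : ℝ) ^ (Λ - e - 1) ≤ (2 * C1)⁻¹ * (R : ℝ) ^ (Λ - e) := by
      rw [Real.rpow_sub_one hRpos.ne']
      have h3 : 2 * C1 * C' ≤ R := (le_max_left _ _).trans hRR
      have hp : 0 < (R : ℝ) ^ (Λ - e) := by positivity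
      rw [mul_div_assoc', div_le_iff₀ hRpos]
      have h4 : C' ≤ (2 * C1)⁻¹ * R := by
        rw [inv_mul_eq_div, le_div_iff₀ (by positivity)]
        linarith
      calc C' * (R : ℝ) ^ (Λ - e) ≤ (2 * C1)⁻¹ * R * (R : ℝ) ^ (Λ - e) :=
            mul_le_mul_of_nonneg_right h4 hp.le
        _ = (2 * C1)⁻¹ * (R : ℝ) ^ (Λ - e) * R := by ring
    have hhalf : C1⁻¹ * (R : ℝ) ^ (Λ - e) = 2 * ((2 * C1)⁻¹ * (R : ℝ) ^ (Λ - e)) := by
      rw [mul_inv]; ring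
    have hkey : (2 * C1)⁻¹ * (R : ℝ) ^ (Λ - e) ≤
        Real.exp (4 * s) * (R : ℝ) ^ e * (C1 * (((2 * b : ℕ) : ℝ)) ^ (Λ + e) * E2) := by
      linarith
    rw [two_rpow_split hb] at hkey
    -- (R/b)^Λ R^(-ε) ≤ D E2
    have hfin : ((R : ℝ) / b) ^ Λ * (R : ℝ) ^ (-ε) ≤ D * E2 := by
      have e1 : (R : ℝ) ^ (Λ - e) ≤ D * E2 * ((R : ℝ) ^ e * (b : ℝ) ^ (Λ + e)) := by
        have := mul_le_mul_of_nonneg_left hkey (by positivity : 0 ≤ 2 * C1)
        rw [← mul_assoc, mul_inv_cancel₀ (by positivity), one_mul] at this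
        refine this.trans (le_of_eq ?_)
        rw [hD]; ring
      have e2 : ((R : ℝ) / b) ^ Λ * (R : ℝ) ^ (-ε) =
          (R : ℝ) ^ (Λ - e) * ((R : ℝ) ^ (-(2 * e)) * (b : ℝ) ^ (-Λ)) := by
        rw [Real.div_rpow hRpos.le hb0.le, Real.rpow_neg hb0.le, div_eq_mul_inv]
        have : (R : ℝ) ^ Λ * (R : ℝ) ^ (-ε) = (R : ℝ) ^ (Λ - e) * (R : ℝ) ^ (-(2 * e)) := by
          rw [← Real.rpow_add hRpos, ← Real.rpow_add hRpos]
          congr 1
          rw [he]; ring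
        calc (R : ℝ) ^ Λ * ((b : ℝ) ^ Λ)⁻¹ * (R : ℝ) ^ (-ε)
            = (R : ℝ) ^ Λ * (R : ℝ) ^ (-ε) * ((b : ℝ) ^ Λ)⁻¹ := by ring
          _ = _ := by rw [this]; ring
      rw [e2]
      have hpos2 : 0 ≤ (R : ℝ) ^ (-(2 * e)) * (b : ℝ) ^ (-Λ) := by positivity
      refine (mul_le_mul_of_nonneg_right e1 hpos2).trans ?_
      have e3 : D * E2 * ((R : ℝ) ^ e * (b : ℝ) ^ (Λ + e)) *
          ((R : ℝ) ^ (-(2 * e)) * (b : ℝ) ^ (-Λ)) = D * E2 * ((R : ℝ) ^ (-e) * (b : ℝ) ^ e) := by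
        have f1 : (R : ℝ) ^ e * (R : ℝ) ^ (-(2 * e)) = (R : ℝ) ^ (-e) := by
          rw [← Real.rpow_add hRpos]; congr 1; ring
        have f2 : (b : ℝ) ^ (Λ + e) * (b : ℝ) ^ (-Λ) = (b : ℝ) ^ e := by
          rw [← Real.rpow_add hb0]; congr 1; ring
        rw [← f1, ← f2]; ring
      rw [e3]
      have e4 : (R : ℝ) ^ (-e) * (b : ℝ) ^ e ≤ 1 := by
        rw [Real.rpow_neg hRpos.le, inv_mul_le_iff₀ (by positivity), mul_one]
        exact Real.rpow_le_rpow hb0.le hbb he0.le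
      have hDE : 0 ≤ D * E2 := by positivity
      nlinarith
    have hmx : 0 < max D (R0 ^ |Λ|) := lt_max_of_lt_left hD0
    rw [mul_assoc, inv_mul_le_iff₀ hmx]
    refine hfin.trans ?_
    exact mul_le_mul_of_nonneg_right (le_max_left _ _) (by linarith)

set_option maxHeartbeats 2000000 in
theorem up {N : Finset Edg → Vtx → ℕ → ℕ → ℕ} (hG : Geo N) (h1 : One N) (hL : LTail) (s : ℝ)
    (hs : s < 0) : AnnUp N s := by
  intro ε hε
  set e : ℝ := ε / 3 with he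
  have he0 : 0 < e := by positivity
  obtain ⟨C1, hC1, hone⟩ := h1 s e he0
  set Λ := Lam s with hΛ
  have hτ : 0 < -s := by linarith
  set A : ℝ := |Λ| + 1 with hA
  have hA0 : 0 < A := by positivity
  have hA1 : -A ≤ Λ + 2 * e := by
    have := neg_abs_le Λ
    rw [hA]; linarith
  set ρ : ℝ := Real.exp (-(18 * (-s) * A / e)) with hρ
  have hρ0 : 0 < ρ := Real.exp_pos _
  obtain ⟨C3, hC3, hlt⟩ := hL ρ hρ0
  set C'' : ℝ := Real.exp (4 * (-s)) * C1 + C3 * ρ⁻¹ with hC''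
  have hC''0 : 0 < C'' := by positivity
  refine ⟨C1 * 2 ^ (-(Λ - e)) * C'', by positivity, ?_⟩
  intro b R hb hbR
  have hbr : (1 : ℝ) ≤ b := by exact_mod_cast hb
  have hb0 : (0 : ℝ) < b := by linarith
  have hbRr : 8 * (b : ℝ) ≤ R := by exact_mod_cast hbR
  have hR1 : (1 : ℝ) ≤ R := by linarith
  have hRpos : (0 : ℝ) < R := by linarith
  have hR1n : 1 ≤ R := by omega
  have hbb : (b : ℝ) ≤ R := by linarith
  set E2 := Ex P2 (bx (0, 0) R) (fun F => Real.exp (s * N F (0, 0) (4 * b) R)) with hE2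
  obtain ⟨k, hk1, hk2⟩ := choice hτ he0 hA0 hR1
  set E0 := Ex P2 (bx (0, 0) R) (fun F => Real.exp (s * N F (0, 0) 0 R)) with hE0
  set E1 := Ex P2 (bx (0, 0) R) (fun F => Real.exp (s * N F (0, 0) 0 (2 * b))) with hE1
  have hE0up : E0 ≤ C1 * (R : ℝ) ^ (Λ + e) := (hone R hR1n).2
  have hE1lo : C1⁻¹ * (((2 * b : ℕ) : ℝ)) ^ (Λ - e) ≤ E1 := by
    rw [hE1, inner hG s hbR]
    exact (hone (2 * b) (by omega)).1
  have hPr : Pr P2 (bx (0, 0) R) (fun F => ¬ Lnk (0, 0) b k F) ≤ C3 * ρ ^ k := by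
    refine hlt b (0, 0) (bx (0, 0) R) hb (bx_mono _ ?_) k
    exact_mod_cast hbR
  have hpt : E1 * E2 ≤ Real.exp ((-s) * (4 + 18 * (k : ℝ))) * E0 +
      Pr P2 (bx (0, 0) R) (fun F => ¬ Lnk (0, 0) b k F) := by
    rw [hE1, hE2, ← indep hG s hb hbR, hE0]
    unfold Pr
    rw [← Ex_mul_left, ← Ex_add]
    refine Ex_mono okP fun F _ => ?_
    by_cases hlk : Lnk (0, 0) b k F
    · have hN := hG.link F (0, 0) b k 0 R hb (by omega) hbR hlk
      have hNr : ((N F (0, 0) 0 R : ℕ) : ℝ) ≤ N F (0, 0) 0 (2 * b) + N F (0, 0) (4 * b) R +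
          (4 + 18 * (k : ℝ)) := by exact_mod_cast hN
      rw [ind_not_of (not_not.mpr hlk), add_zero, ← Real.exp_add, ← Real.exp_add]
      apply Real.exp_le_exp.mpr
      nlinarith
    · rw [ind_of hlk, ← Real.exp_add]
      have h3 : Real.exp (s * N F (0, 0) 0 (2 * b) + s * N F (0, 0) (4 * b) R) ≤ 1 := by
        rw [Real.exp_le_one_iff]
        have h4 : (0 : ℝ) ≤ N F (0, 0) 0 (2 * b) := Nat.cast_nonneg _
        have h5 : (0 : ℝ) ≤ N F (0, 0) (4 * b) R := Nat.cast_nonneg _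
        nlinarith
      have h6 : 0 ≤ Real.exp ((-s) * (4 + 18 * (k : ℝ))) * Real.exp (s * N F (0, 0) 0 R) := by
        positivity
      linarith
  have hEE : E1 * E2 ≤ C'' * (R : ℝ) ^ (Λ + 2 * e) := by
    refine hpt.trans ?_
    have hE0n : 0 ≤ E0 := Ex_nonneg okP fun F _ => (Real.exp_pos _).le
    have a1 : Real.exp ((-s) * (4 + 18 * (k : ℝ))) * E0 ≤
        Real.exp (4 * (-s)) * C1 * (R : ℝ) ^ (Λ + 2 * e) := by
      calc Real.exp ((-s) * (4 + 18 * (k : ℝ))) * E0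
          ≤ Real.exp (4 * (-s)) * (R : ℝ) ^ e * (C1 * (R : ℝ) ^ (Λ + e)) :=
            mul_le_mul hk1 hE0up hE0n (by positivity)
        _ = Real.exp (4 * (-s)) * C1 * (R : ℝ) ^ (Λ + 2 * e) := by
            have : (R : ℝ) ^ (Λ + 2 * e) = (R : ℝ) ^ e * (R : ℝ) ^ (Λ + e) := by
              rw [← Real.rpow_add hRpos]; congr 1; ring
            rw [this]; ring
    have a2 : Pr P2 (bx (0, 0) R) (fun F => ¬ Lnk (0, 0) b k F) ≤
        C3 * ρ⁻¹ * (R : ℝ) ^ (Λ + 2 * e) := by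
      calc Pr P2 (bx (0, 0) R) (fun F => ¬ Lnk (0, 0) b k F) ≤ C3 * ρ ^ k := hPr
        _ ≤ C3 * (ρ⁻¹ * (R : ℝ) ^ (-A)) := mul_le_mul_of_nonneg_left hk2 hC3.le
        _ = C3 * ρ⁻¹ * (R : ℝ) ^ (-A) := by ring
        _ ≤ C3 * ρ⁻¹ * (R : ℝ) ^ (Λ + 2 * e) :=
            mul_le_mul_of_nonneg_left (Real.rpow_le_rpow_of_exponent_le hR1 hA1) (by positivity)
    calc _ ≤ Real.exp (4 * (-s)) * C1 * (R : ℝ) ^ (Λ + 2 * e) +
          C3 * ρ⁻¹ * (R : ℝ) ^ (Λ + 2 * e) := add_le_add a1 a2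
      _ = C'' * (R : ℝ) ^ (Λ + 2 * e) := by rw [hC'']; ring
  have hE2n : 0 ≤ E2 := Ex_nonneg okP fun F _ => (Real.exp_pos _).le
  rw [two_rpow_split hb] at hE1lo
  have hb3 : C1⁻¹ * (2 ^ (Λ - e) * (b : ℝ) ^ (Λ - e)) * E2 ≤ C'' * (R : ℝ) ^ (Λ + 2 * e) :=
    (mul_le_mul_of_nonneg_right hE1lo hE2n).trans hEE
  have hE2b : E2 ≤ C1 * 2 ^ (-(Λ - e)) * C'' * ((R : ℝ) ^ (Λ + 2 * e) * (b : ℝ) ^ (-(Λ - e))) := by
    have hp1 : (0 : ℝ) < 2 ^ (Λ - e) := by positivity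
    have hp2 : (0 : ℝ) < (b : ℝ) ^ (Λ - e) := by positivity
    rw [Real.rpow_neg (by norm_num : (0 : ℝ) ≤ 2), Real.rpow_neg hb0.le]
    have h7 : E2 = C1 * (2 ^ (Λ - e))⁻¹ * ((b : ℝ) ^ (Λ - e))⁻¹ *
        (C1⁻¹ * (2 ^ (Λ - e) * (b : ℝ) ^ (Λ - e)) * E2) := by
      field_simp
    rw [h7]
    refine (mul_le_mul_of_nonneg_left hb3 (by positivity)).trans (le_of_eq ?_)
    ring
  refine hE2b.trans ?_
  rw [mul_assoc (C1 * 2 ^ (-(Λ - e)) * C'')]
  refine mul_le_mul_of_nonneg_left ?_ (by positivity)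
  have e2 : ((R : ℝ) / b) ^ Λ * (R : ℝ) ^ ε =
      (R : ℝ) ^ (Λ + 2 * e) * ((R : ℝ) ^ e * (b : ℝ) ^ (-Λ)) := by
    rw [Real.div_rpow hRpos.le hb0.le, Real.rpow_neg hb0.le, div_eq_mul_inv]
    have : (R : ℝ) ^ Λ * (R : ℝ) ^ ε = (R : ℝ) ^ (Λ + 2 * e) * (R : ℝ) ^ e := by
      rw [← Real.rpow_add hRpos, ← Real.rpow_add hRpos]
      congr 1
      rw [he]; ring
    calc (R : ℝ) ^ Λ * ((b : ℝ) ^ Λ)⁻¹ * (R : ℝ) ^ ε
        = (R : ℝ) ^ Λ * (R : ℝ) ^ ε * ((b : ℝ) ^ Λ)⁻¹ := by ring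
      _ = _ := by rw [this]; ring
  rw [e2]
  refine mul_le_mul_of_nonneg_left ?_ (by positivity)
  have e5 : (b : ℝ) ^ (-(Λ - e)) = (b : ℝ) ^ e * (b : ℝ) ^ (-Λ) := by
    rw [← Real.rpow_add hb0]; congr 1; ring
  rw [e5]
  exact mul_le_mul_of_nonneg_right (Real.rpow_le_rpow hb0.le hbb he0.le) (by positivity)

theorem t_ANN2 {N : Finset Edg → Vtx → ℕ → ℕ → ℕ} (hG : Geo N) (h1 : One N) (hL : LTail) :
    (∀ s, 0 < s → AnnLo N s) ∧ (∀ s, s < 0 → AnnUp N s) :=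
  ⟨fun s hs => lo hG h1 hL s hs, fun s hs => up hG h1 hL s hs⟩

end Pool.Agent.W214.EN
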